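import Pool.Agent.H596R2.D3.Final

/-!
Depth three circuits with an AND output gate for 3-CNF-SAT: exhaustive search is optimal.
-/

namespace Pool.Agent.Results.MP_b53add_lc.AndOutput

open Pool.Agent.H596R2.D3

theorem result :
    (∃ n0 : ℕ, ∀ n ≥ n0, ∀ C : Circuit (Clause n 3) 3, C.Decides → C.conj C.out = true →
      (2 : ℝ) ^ ((n : ℝ) - 6 * (n : ℝ) ^ ((2 : ℝ) / 3)) ≤ C.size) ∧
    ∀ n : ℕ, ∃ C : Circuit (Clause n 3) 3,
      C.Decides ∧ C.conj C.out = true ∧ C.size = 2 ^ n + 2 :=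
  ⟨main_and (le_refl 3), fun n => upper n 3⟩

end Pool.Agent.Results.MP_b53add_lc.AndOutput
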