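import Pool.Agent.H596R2.D3.Final

/-!
All depth three circuits for 3-CNF-SAT have at least `2 ^ (c n ^ (3/4))` gates.
-/

namespace Pool.Agent.Results.MP_b53add_lc.DepthThree

open Pool.Agent.H596R2.D3

theorem result : ∃ c : ℝ, 0 < c ∧ ∃ n0 : ℕ, ∀ n ≥ n0, ∀ C : Circuit (Clause n 3) 3,
    C.Decides → (2 : ℝ) ^ (c * (n : ℝ) ^ ((3 : ℝ) / 4)) ≤ C.size := by
  obtain ⟨c, hc, n0, h⟩ := main_all (le_refl 3)
  refine ⟨c, hc, n0, fun n hn C hC => ?_⟩
  have := h n hn C hC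
  norm_num at this
  exact this

end Pool.Agent.Results.MP_b53add_lc.DepthThree
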