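import Mathlib
import Pool.Agent.H592R5.PcpDefs
import Pool.Agent.H592R6.GapDefs
import Pool.Agent.H592R10.GapRes

/-!
Circuits of small depth, and even proof systems with such verifiers, that distinguish constraint
satisfaction problems of which at most three quarters of the constraints can be satisfied from
satisfiable ones need `2 ^ ((1 - ε) n)` gates.
-/

open SmallDepth DomAC0 Filter

open Classical in
theorem Pool.Agent.Results.MP_b53add_lc.GapInstances.result :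
    (∀ ε : ℝ, 0 < ε → ε < 1 → ∃ C : ℝ, 0 < C ∧ ∀ n d k q t w : ℕ, 2 ≤ n → 1 ≤ d →
      C * (d * Real.log (n + k * (q + 1) + t)) ≤ w → w ≤ n →
      ∃ (M : ℕ) (sc : Fin M → Fin w → Fin n) (μ : (Fin M × (Fin w → Bool) → Bool) → ℝ),
        1 ≤ M ∧ M ≤ n ∧ (∀ y, 0 ≤ μ y) ∧ ∑ y, μ y = 1 ∧
        (∑ y, if ThreeQuarters sc y then 0 else μ y) ≤ (2 : ℝ) ^ (-((1 - ε) * n / 10)) ∧
        ∀ (V : PcpVerifier (Fin M × (Fin w → Bool)) k q) (θ : ℝ) (S : ℕ),
          V.Bounded d S → (S : ℝ) ≤ 2 ^ ((1 - ε) * n) →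
          (∀ y, Satisfiable sc y → ∀ π, V.acc y π ≤ θ) →
          (∑ y, if ∃ π, θ + 1 / 3 ≤ V.acc y π then μ y else 0) ≤ (1 / 2) ^ t) ∧
    (∀ p p' : ℕ, p < p' → ∀ d : ℕ, ∃ K : ℕ, ∀ᶠ n : ℕ in atTop, ∀ w : ℕ,
      w = K * Nat.clog 2 n →
      ∃ (M : ℕ) (sc : Fin M → Fin w → Fin n), 1 ≤ M ∧ M ≤ n ∧
      ¬ ∃ C : Circuit (Fin M × (Fin w → Bool)), C.depth ≤ d ∧ C.size ≤ 2 ^ (p * n / p') ∧
        (∀ y, ThreeQuarters sc y → C.eval y = true) ∧
        (∀ y, Satisfiable sc y → C.eval y = false)) := by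
  refine ⟨H592R6.GapRes.main.1, ?_⟩
  intro p p' hpp d
  obtain ⟨K, hK⟩ := H592R6.GapRes.main.2 p p' hpp 0 d
  refine ⟨K, ?_⟩
  filter_upwards [hK] with n hn
  intro w hw
  obtain ⟨M, sc, hM1, hM2, hno⟩ := hn w 0 0 hw (by simp) (by simp)
  refine ⟨M, sc, hM1, hM2, ?_⟩
  rintro ⟨C, hCd, hCs, hyes, hsat⟩
  obtain ⟨V, hV⟩ : ∃ V : PcpVerifier (Fin M × (Fin w → Bool)) 0 0, V =
      { Ω := Unit
        fin := inferInstance
        prob := fun _ => 1
        nonneg := fun _ => zero_le_one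
        total := by simp
        circ := fun _ _ => C
        addr := fun _ _ t => t.elim0
        adaptive := fun _ _ _ t => t.elim0 } := ⟨_, rfl⟩
  have hacc : ∀ y π, V.acc y π = if C.eval y = true then 1 else 0 := by
    intro y π
    rw [hV]
    unfold PcpVerifier.acc
    simp only [Finset.univ_unique, Finset.sum_singleton]
    by_cases hy : C.eval y = true
    · rw [if_pos hy, if_pos]
      exact ⟨fun t => t.elim0, fun t => t.elim0, hy⟩
    · rw [if_neg hy, if_neg]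
      rintro ⟨r, _, hr⟩
      exact hy hr
  apply hno
  refine ⟨V, ?_, ?_, ?_⟩
  · rw [hV]
    intro ω r
    exact ⟨hCs, hCd, fun t => t.elim0⟩
  · intro y hy
    exact ⟨fun _ => false, by rw [hacc, if_pos (hyes y hy)]⟩
  · intro y hy π
    rw [hacc, if_neg (by rw [hsat y hy]; simp)]
    norm_num
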