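import Mathlib
import Pool.Agent.H592R3.Det
import Pool.Agent.H592R3.MobKcnf

/-!
Small-depth circuits for the satisfiability of CNF formulas with clauses of `C d log n` literals
need `2 ^ ((1 - ε) n)` gates.
-/

open SmallDepth DomAC0 Filter H592R3

theorem Pool.Agent.Results.MP_b53add_lc.WideClauses.result :
    (∀ ε : ℝ, 0 < ε → ∃ C : ℝ, 0 < C ∧ ∀ n d w S : ℕ, 2 ≤ n → 1 ≤ d →
      C * (d * Real.log n) ≤ w → w ≤ n →
      ∀ R : RandCircuit (Clause n w), R.Bounded d S →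
      (∀ x : Clause n w → Bool, (∀ α β, KModels x α → KModels x β → α = β) →
        R.Correct x (∃ α, KModels x α)) →
      (2 : ℝ) ^ ((1 - ε) * n) < S) ∧
    (∀ δ : ℝ, δ < 1 → ∃ C : ℕ, ∀ d : ℕ, ∀ᶠ n : ℕ in atTop,
      ¬ ∃ K : Circuit (Clause n (C * (d + 1) * Nat.clog 2 n)), K.depth ≤ d ∧
        (K.size : ℝ) ≤ 2 ^ (δ * n) ∧
        ∀ x : Clause n (C * (d + 1) * Nat.clog 2 n) → Bool,
          (K.eval x = true ↔ ∃ α, KModels x α)) := by
  refine ⟨fun ε hε => kcnf_lower2 ε hε, ?_⟩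
  intro δ hδ
  obtain ⟨C₀, hC₀, hlow⟩ := kcnf_lower2 (1 - δ) (by linarith)
  refine ⟨⌈C₀⌉₊, ?_⟩
  intro d
  obtain ⟨K, hK⟩ : ∃ K : ℕ, K = ⌈C₀⌉₊ := ⟨_, rfl⟩
  rw [← hK]
  have hwlim : ∀ᶠ n : ℕ in atTop, K * (d + 1) * Nat.clog 2 n ≤ n := by
    have h1 : (1 : ℝ) < 2 := by norm_num
    have h2 := (isLittleO_log_rpow_atTop (r := 1) (by norm_num)).bound
      (c := 1 / (4 * ((K * (d + 1) : ℕ) : ℝ) + 4)) (by positivity)
    have h3 := tendsto_natCast_atTop_atTop (R := ℝ) |>.eventually h2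
    filter_upwards [h3, eventually_ge_atTop (2 * (K * (d + 1)) + 2)] with n hn hn1
    have hn1' : (1 : ℝ) ≤ n := by exact_mod_cast (by omega : 1 ≤ n)
    have hn2 : 2 * ((K * (d + 1) : ℕ) : ℝ) + 2 ≤ n := by exact_mod_cast hn1
    rw [Real.norm_of_nonneg (Real.log_nonneg hn1'), Real.rpow_one,
      Real.norm_of_nonneg (by positivity)] at hn
    have h4 : (Nat.clog 2 n : ℝ) ≤ 2 * Real.log n + 1 := by
      have h5 : 2 ^ Nat.clog 2 n < 2 * n := by
        have h5 := Nat.pow_pred_clog_lt_self (b := 2) (by norm_num) (by omega : 1 < n)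
        have h6 : Nat.clog 2 n = (Nat.clog 2 n).pred + 1 := by
          have := Nat.clog_pos (b := 2) (by norm_num) (by omega : 2 ≤ n)
          exact (Nat.succ_pred_eq_of_pos this).symm
        rw [h6, pow_succ]
        omega
      have h6 : (2 : ℝ) ^ Nat.clog 2 n ≤ 2 * n := by exact_mod_cast h5.le
      have h7 := Real.log_le_log (by positivity) h6
      rw [Real.log_pow, Real.log_mul (by norm_num) (by positivity)] at h7
      have h8 := Real.log_two_gt_d9
      have h9 : (0 : ℝ) ≤ (Nat.clog 2 n : ℝ) := by positivity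
      have h10 := Real.log_nonneg hn1'
      by_contra h11
      rw [not_le] at h11
      nlinarith
    have h10 : ((K * (d + 1) : ℕ) : ℝ) * (Nat.clog 2 n : ℝ) ≤ n := by
      obtain ⟨A, hA⟩ : ∃ A : ℝ, A = ((K * (d + 1) : ℕ) : ℝ) := ⟨_, rfl⟩
      have hA0 : 0 ≤ A := by rw [hA]; positivity
      rw [← hA] at hn hn2 ⊢
      rw [div_mul_eq_mul_div, one_mul, le_div_iff₀ (by positivity)] at hn
      calc A * (Nat.clog 2 n : ℝ) ≤ A * (2 * Real.log n + 1) := by gcongr
        _ ≤ n := by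
          have h11 := Real.log_nonneg hn1'
          nlinarith
    exact_mod_cast h10
  filter_upwards [hwlim, eventually_ge_atTop 2] with n h2 h3
  rintro ⟨Z, hZd, hZs, hZ⟩
  have hnR : (2 : ℝ) ≤ n := by exact_mod_cast h3
  have hmain := hlow n (max d 1) _ Z.size h3 (le_max_right _ _) ?_ h2 (RandCircuit.det Z)
    (RandCircuit.det_bounded Z (hZd.trans (le_max_left _ _)) le_rfl) ?_
  · have h7 : (1 - (1 - δ)) * (n : ℝ) = δ * n := by ring
    rw [h7] at hmain
    linarith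
  · have h8 : C₀ ≤ K := by rw [hK]; exact Nat.le_ceil _
    have h9 : Real.log n ≤ (Nat.clog 2 n : ℝ) := by
      have h10 : (n : ℝ) ≤ 2 ^ (Nat.clog 2 n) := by
        exact_mod_cast Nat.le_pow_clog (by norm_num) n
      calc Real.log n ≤ Real.log (2 ^ (Nat.clog 2 n)) := Real.log_le_log (by linarith) h10
        _ = Nat.clog 2 n * Real.log 2 := Real.log_pow _ _
        _ ≤ Nat.clog 2 n * 1 := by
            gcongr
            linarith [Real.log_two_lt_d9]
        _ = Nat.clog 2 n := mul_one _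
    have h11 : ((max d 1 : ℕ) : ℝ) ≤ ((d + 1 : ℕ) : ℝ) := by
      exact_mod_cast (by omega : max d 1 ≤ d + 1)
    have h12 : (0 : ℝ) ≤ Real.log n := Real.log_nonneg (by linarith)
    calc C₀ * (((max d 1 : ℕ) : ℝ) * Real.log n) ≤ K * (((d + 1 : ℕ) : ℝ) * (Nat.clog 2 n : ℝ)) := by
          gcongr
      _ = ((K * (d + 1) * Nat.clog 2 n : ℕ) : ℝ) := by push_cast; ring
  · intro x _
    apply RandCircuit.det_correct
    rw [Bool.eq_iff_iff, hZ x]
    simp
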